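import Mathlib

/-!
# The k-general position number of the n-dimensional infinite grid

It is `(k - 1) ^ (2 ^ (n - 1))` for all `k ≥ 2` and `n ≥ 1`.

Upper bound: order the points by the first coordinate (ties are broken arbitrarily); the other
coordinates give every pair of points one of `2 ^ (n - 1)` patterns, and for a point and a pattern
consider the length of the longest chain of this pattern which ends at this point.
Lower bound: the points are indexed by the functions from the set of patterns to `{0, ..., k - 2}`, and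
the coordinates are signed lexicographic orders (de Bruijn's construction).
-/

set_option autoImplicit false

namespace Pool.Agent.Results.MP_2aa471_co.GeneralPosition

/-- The infinite grid with the vertex set `ℤ ^ n`: two points are adjacent when they differ by `1` in
exactly one coordinate. -/
def grid (n : ℕ) : SimpleGraph (Fin n → ℤ) where
  Adj x y := ∃ i, |x i - y i| = 1 ∧ ∀ j, j ≠ i → x j = y j
  symm := ⟨by
    rintro x y ⟨i, h, h'⟩
    exact ⟨i, by rw [abs_sub_comm]; exact h, fun j hj => (h' j hj).symm⟩⟩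
  loopless := ⟨by
    rintro x ⟨i, h, -⟩
    simp at h⟩

/-- The vertices in `T` lie on a common geodesic: some shortest path contains all of them. -/
def OnCommonGeodesic {V : Type} (G : SimpleGraph V) (T : Set V) : Prop :=
  ∃ (u v : V) (p : G.Walk u v), p.length = G.dist u v ∧ ∀ x ∈ T, x ∈ p.support

/-- `S` is a `k`-general position set: no `k` distinct vertices of `S` lie on a common geodesic. -/
def IsGeneralPosition {V : Type} (G : SimpleGraph V) (k : ℕ) (S : Set V) : Prop :=
  ∀ T : Finset V, (T : Set V) ⊆ S → T.card = k → ¬ OnCommonGeodesic G (T : Set V)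

/-- the `ℓ₁` distance -/
def l1 {n : ℕ} (x y : Fin n → ℤ) : ℕ := ∑ i, (x i - y i).natAbs

section metric

variable {n : ℕ}

lemma l1_triangle (x y z : Fin n → ℤ) : l1 x z ≤ l1 x y + l1 y z := by
  unfold l1
  rw [← Finset.sum_add_distrib]
  exact Finset.sum_le_sum fun i _ => by omega

lemma l1_adj {x y : Fin n → ℤ} (h : (grid n).Adj x y) : l1 x y = 1 := by
  obtain ⟨i, h1, h2⟩ := h
  unfold l1
  rw [Finset.sum_eq_single i]
  · rw [← Int.natCast_inj, Int.natCast_natAbs]
    exact_mod_cast h1
  · intro j _ hj
    rw [h2 j hj]; simp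
  · intro h; exact absurd (Finset.mem_univ i) h

lemma l1_le_length {x y : Fin n → ℤ} (p : (grid n).Walk x y) : l1 x y ≤ p.length := by
  induction p with
  | nil => simp [l1]
  | cons h p ih =>
    rw [SimpleGraph.Walk.length_cons]
    have := l1_triangle _ _ _ |>.trans (Nat.add_le_add (l1_adj h).le ih)
    omega

lemma exists_walk (m : ℕ) : ∀ x y : Fin n → ℤ, l1 x y = m →
    ∃ p : (grid n).Walk x y, p.length = m := by
  induction m with
  | zero =>
    intro x y h
    have hxy : x = y := by
      funext i
      have h1 := (Finset.sum_eq_zero_iff.mp h) i (Finset.mem_univ i)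
      omega
    subst hxy
    exact ⟨SimpleGraph.Walk.nil, rfl⟩
  | succ m ih =>
    intro x y h
    have hne : ∃ i, x i ≠ y i := by
      by_contra hcon
      push Not at hcon
      have : l1 x y = 0 := by
        unfold l1
        exact Finset.sum_eq_zero fun i _ => by rw [hcon i]; simp
      omega
    obtain ⟨i, hi⟩ := hne
    set e : ℤ := if x i < y i then 1 else -1 with he
    set w : Fin n → ℤ := Function.update x i (x i + e) with hw
    have hadj : (grid n).Adj x w := by
      refine ⟨i, ?_, fun j hj => ?_⟩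
      · rw [hw, Function.update_self, he]
        split_ifs <;> simp
      · rw [hw, Function.update_of_ne hj]
    have hl : l1 w y + 1 = l1 x y := by
      unfold l1
      rw [← Finset.add_sum_erase Finset.univ (fun j => (w j - y j).natAbs) (Finset.mem_univ i),
        ← Finset.add_sum_erase Finset.univ (fun j => (x j - y j).natAbs) (Finset.mem_univ i)]
      have h1 : ∑ j ∈ Finset.univ.erase i, (w j - y j).natAbs =
          ∑ j ∈ Finset.univ.erase i, (x j - y j).natAbs := by
        refine Finset.sum_congr rfl fun j hj => ?_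
        rw [hw, Function.update_of_ne (Finset.ne_of_mem_erase hj)]
      rw [h1, hw, Function.update_self, he]
      split_ifs <;> omega
    obtain ⟨p, hp⟩ := ih w y (by omega)
    exact ⟨SimpleGraph.Walk.cons hadj p, by rw [SimpleGraph.Walk.length_cons, hp]⟩

lemma dist_eq (x y : Fin n → ℤ) : (grid n).dist x y = l1 x y := by
  obtain ⟨p, hp⟩ := exists_walk _ x y rfl
  apply le_antisymm
  · rw [← hp]; exact SimpleGraph.dist_le p
  · obtain ⟨q, hq⟩ := p.reachable.exists_walk_length_eq_dist
    rw [← hq]; exact l1_le_length q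

lemma getVert_l1 {x y : Fin n → ℤ} (p : (grid n).Walk x y) (i j : ℕ) (hij : i ≤ j)
    (hj : j ≤ p.length) : l1 (p.getVert i) (p.getVert j) ≤ j - i := by
  induction j, hij using Nat.le_induction with
  | base => simp [l1]
  | succ j hij ih =>
    have h1 := ih (by omega)
    have h2 := l1_adj (p.adj_getVert_succ (i := j) (by omega))
    have h3 := l1_triangle (p.getVert i) (p.getVert j) (p.getVert (j + 1))
    omega

/-- Along a geodesic each coordinate is monotone. -/
lemma geo {x y : Fin n → ℤ} (p : (grid n).Walk x y) (hp : p.length = (grid n).dist x y) {i j : ℕ}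
    (hij : i ≤ j) (hj : j ≤ p.length) (c : Fin n) :
    (p.getVert i c < p.getVert j c → x c < y c) ∧ (p.getVert j c < p.getVert i c → y c < x c) := by
  have h1 := getVert_l1 p 0 i (Nat.zero_le _) (by omega)
  have h2 := getVert_l1 p i j hij hj
  have h3 := getVert_l1 p j p.length hj le_rfl
  rw [SimpleGraph.Walk.getVert_zero] at h1
  rw [SimpleGraph.Walk.getVert_length] at h3
  rw [dist_eq] at hp
  have hsum : ∑ c, ((x c - p.getVert i c).natAbs + (p.getVert i c - p.getVert j c).natAbs +
      (p.getVert j c - y c).natAbs) ≤ ∑ c, (x c - y c).natAbs := by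
    rw [Finset.sum_add_distrib, Finset.sum_add_distrib]
    change l1 x (p.getVert i) + l1 (p.getVert i) (p.getVert j) + l1 (p.getVert j) y ≤ l1 x y
    omega
  have hterm : ∀ c ∈ Finset.univ, (x c - y c).natAbs ≤ (x c - p.getVert i c).natAbs +
      (p.getVert i c - p.getVert j c).natAbs + (p.getVert j c - y c).natAbs := by
    intro c _
    omega
  have heq := (Finset.sum_eq_sum_iff_of_le hterm).mp
    (le_antisymm (Finset.sum_le_sum hterm) hsum) c (Finset.mem_univ c)
  constructor <;> intro h <;> omega

end metric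

section upper

variable {d : ℕ}

/-- a linear order refining the order of the first coordinate -/
def key (p : Fin (d + 1) → ℤ) : ℤ ×ₗ ℕ := toLex (p 0, Encodable.encode p)

lemma key_inj {p q : Fin (d + 1) → ℤ} (h : key p = key q) : p = q := by
  have h1 : (p 0, Encodable.encode p) = (q 0, Encodable.encode q) := toLex.injective h
  exact Encodable.encode_injective (Prod.ext_iff.mp h1).2

lemma key_zero {p q : Fin (d + 1) → ℤ} (h : key p < key q) : p 0 ≤ q 0 := by
  unfold key at h
  rw [Prod.Lex.toLex_lt_toLex] at h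
  rcases h with h | h
  · exact h.le
  · exact h.1.le

/-- the pattern of a pair of points -/
def pat (p q : Fin (d + 1) → ℤ) : Fin d → Bool := fun j => decide (p j.succ ≤ q j.succ)

/-- chains of pattern `ε` in `F` of length `m` ending at a point -/
inductive Ch (F : Finset (Fin (d + 1) → ℤ)) (ε : Fin d → Bool) : ℕ → (Fin (d + 1) → ℤ) → Prop
  | one {p : Fin (d + 1) → ℤ} (hp : p ∈ F) : Ch F ε 1 p
  | step {m : ℕ} {p q : Fin (d + 1) → ℤ} (h : Ch F ε m p) (hq : q ∈ F) (hk : key p < key q)
      (he : pat p q = ε) : Ch F ε (m + 1) q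

lemma chain_geodesic {F : Finset (Fin (d + 1) → ℤ)} {ε : Fin d → Bool} {m : ℕ}
    {q : Fin (d + 1) → ℤ} (h : Ch F ε m q) :
    ∃ (u : Fin (d + 1) → ℤ) (p : (grid (d + 1)).Walk u q), p.length = l1 u q ∧
      (u 0 ≤ q 0 ∧ ∀ j : Fin d, if ε j = true then u j.succ ≤ q j.succ else q j.succ ≤ u j.succ) ∧
      ∃ T : Finset (Fin (d + 1) → ℤ), T.card = m ∧ T ⊆ F ∧ (∀ t ∈ T, t ∈ p.support) ∧
        ∀ t ∈ T, key t ≤ key q := by
  classical
  induction h with
  | one hp =>
    rename_i q
    refine ⟨q, SimpleGraph.Walk.nil, by simp [l1], ⟨le_rfl, fun j => by split_ifs <;> exact le_rfl⟩,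
      {q}, by simp, by simpa using hp, by simp, by simp⟩
  | step h hq hk he ih =>
    rename_i m q q'
    obtain ⟨u, p, hp, ⟨h0, hu⟩, T, hT, hTF, hTp, hTk⟩ := ih
    obtain ⟨r, hr⟩ := exists_walk _ q q' rfl
    have hstep : ∀ j : Fin d, if ε j = true then q j.succ ≤ q' j.succ
        else q' j.succ ≤ q j.succ := by
      intro j
      have h1 : pat q q' j = ε j := by rw [he]
      unfold pat at h1
      by_cases hc : ε j = true
      · rw [if_pos hc]
        rw [hc] at h1
        exact of_decide_eq_true h1
      · rw [if_neg hc]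
        have h2 : ε j = false := by simpa using hc
        rw [h2] at h1
        have h3 := of_decide_eq_false h1
        omega
    have hz := key_zero hk
    refine ⟨u, p.append r, ?_, ⟨h0.trans hz, fun j => ?_⟩, insert q' T, ?_, ?_, ?_, ?_⟩
    · rw [SimpleGraph.Walk.length_append, hp, hr]
      unfold l1
      rw [← Finset.sum_add_distrib]
      refine Finset.sum_congr rfl fun c _ => ?_
      induction c using Fin.cases with
      | zero => omega
      | succ j =>
        have h1 := hu j
        have h2 := hstep j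
        split_ifs at h1 h2 <;> omega
    · have h1 := hu j
      have h2 := hstep j
      split_ifs at h1 h2 ⊢ <;> omega
    · rw [Finset.card_insert_of_notMem, hT]
      intro hmem
      exact absurd (hTk q' hmem) (not_le.mpr hk)
    · intro t ht
      rcases Finset.mem_insert.mp ht with h1 | h1
      · rw [h1]; exact hq
      · exact hTF h1
    · intro t ht
      rw [SimpleGraph.Walk.mem_support_append_iff]
      rcases Finset.mem_insert.mp ht with h1 | h1
      · rw [h1]; exact Or.inr (SimpleGraph.Walk.end_mem_support r)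
      · exact Or.inl (hTp t h1)
    · intro t ht
      rcases Finset.mem_insert.mp ht with h1 | h1
      · rw [h1]
      · exact (hTk t h1).trans hk.le

lemma upper_finset {k : ℕ} (hk : 2 ≤ k) (F : Finset (Fin (d + 1) → ℤ))
    (hF : IsGeneralPosition (grid (d + 1)) k (F : Set (Fin (d + 1) → ℤ))) :
    F.card ≤ (k - 1) ^ (2 ^ d) := by
  classical
  have hno : ∀ ε q, ¬ Ch F ε k q := by
    intro ε q h
    obtain ⟨u, p, hp, -, T, hT, hTF, hTp, -⟩ := chain_geodesic h
    exact hF T (by exact_mod_cast hTF) hT
      ⟨u, q, p, by rw [hp, dist_eq], fun x hx => hTp x (by exact_mod_cast hx)⟩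
  let f : (Fin (d + 1) → ℤ) → (Fin d → Bool) → ℕ := fun p ε =>
    Nat.findGreatest (fun m => Ch F ε m p) (k - 1)
  have hf1 : ∀ p ∈ F, ∀ ε, Ch F ε (f p ε) p ∧ 1 ≤ f p ε ∧ f p ε ≤ k - 1 := by
    intro p hp ε
    have h1 : Ch F ε 1 p := Ch.one hp
    have h2 : 1 ≤ f p ε := Nat.le_findGreatest (by omega) h1
    exact ⟨Nat.findGreatest_spec (P := fun m => Ch F ε m p) (by omega) h1, h2,
      Nat.findGreatest_le _⟩
  have hlt : ∀ p ∈ F, ∀ q ∈ F, key p < key q → f p (pat p q) < f q (pat p q) := by
    intro p hp q hq hpq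
    obtain ⟨h1, h2, h3⟩ := hf1 p hp (pat p q)
    have h4 : Ch F (pat p q) (f p (pat p q) + 1) q := Ch.step h1 hq hpq rfl
    have h5 : f p (pat p q) + 1 ≤ k - 1 := by
      by_contra hcon
      have h6 : f p (pat p q) + 1 = k := by omega
      rw [h6] at h4
      exact hno _ _ h4
    exact Nat.lt_of_succ_le (Nat.le_findGreatest h5 h4)
  have hcard : (Fintype.piFinset fun _ : Fin d → Bool => Finset.Icc 1 (k - 1)).card =
      (k - 1) ^ (2 ^ d) := by
    rw [Fintype.card_piFinset]
    simp
  rw [← hcard]
  refine Finset.card_le_card_of_injOn f ?_ ?_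
  · intro p hp
    rw [Finset.mem_coe, Fintype.mem_piFinset]
    intro ε
    rw [Finset.mem_Icc]
    exact (hf1 p hp ε).2
  · intro p hp q hq hpq
    by_contra hne
    rcases lt_trichotomy (key p) (key q) with h | h | h
    · exact absurd (congrFun hpq (pat p q)) (hlt p hp q hq h).ne
    · exact hne (key_inj h)
    · exact absurd (congrFun hpq (pat q p)) (hlt q hq p hp h).ne'

end upper

section lower

/-- Signed sums in base `k` with small digits. -/
lemma small_sum {k : ℤ} (hk : 2 ≤ k) (a : ℕ → ℤ) (ha : ∀ i, |a i| ≤ k - 2) (m : ℕ) :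
    |∑ i ∈ Finset.range m, a i * k ^ i| < k ^ m := by
  induction m with
  | zero => simp
  | succ m ih =>
    rw [Finset.sum_range_succ]
    have hkm : 0 < k ^ m := by positivity
    calc |∑ i ∈ Finset.range m, a i * k ^ i + a m * k ^ m|
        ≤ |∑ i ∈ Finset.range m, a i * k ^ i| + |a m * k ^ m| := abs_add_le _ _
      _ < k ^ m + (k - 2) * k ^ m := by
          refine add_lt_add_of_lt_of_le ih ?_
          rw [abs_mul, abs_of_pos hkm]
          exact mul_le_mul_of_nonneg_right (ha m) hkm.le
      _ ≤ k ^ (m + 1) := by rw [pow_succ]; nlinarith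

lemma sign_sum {k : ℤ} (hk : 2 ≤ k) (a : ℕ → ℤ) (ha : ∀ i, |a i| ≤ k - 2) {m i : ℕ} (him : i < m)
    (hz : ∀ j, i < j → a j = 0) :
    (0 < a i → 0 < ∑ j ∈ Finset.range m, a j * k ^ j) ∧
      (a i < 0 → ∑ j ∈ Finset.range m, a j * k ^ j < 0) := by
  have h1 : ∑ j ∈ Finset.range m, a j * k ^ j =
      ∑ j ∈ Finset.range i, a j * k ^ j + a i * k ^ i := by
    rw [← Finset.sum_range_succ]
    symm
    refine Finset.sum_subset (Finset.range_mono him) fun j _ hj => ?_
    rw [Finset.mem_range, not_lt] at hj
    rw [hz j (by omega), zero_mul]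
  have h2 := abs_lt.mp (small_sum hk a ha i)
  have hki : 0 < k ^ i := by positivity
  rw [h1]
  constructor
  · intro h
    nlinarith [h2.1]
  · intro h
    nlinarith [h2.2]

variable {d : ℕ}

/-- The sign of the coordinate `c` in the pattern number `i`. -/
noncomputable def sg (d : ℕ) (i : Fin (2 ^ d)) (c : Fin (d + 1)) : ℤ :=
  Fin.cases 1 (fun j => if (Fintype.equivFinOfCardEq (α := Fin d → Bool) (n := 2 ^ d)
    (by simp)).symm i j = true then 1 else -1) c

lemma sg_zero (i : Fin (2 ^ d)) : sg d i 0 = 1 := rfl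

lemma sg_or (i : Fin (2 ^ d)) (c : Fin (d + 1)) : sg d i c = 1 ∨ sg d i c = -1 := by
  unfold sg
  induction c using Fin.cases with
  | zero => exact Or.inl rfl
  | succ j =>
    simp only [Fin.cases_succ]
    split_ifs
    · exact Or.inl rfl
    · exact Or.inr rfl

lemma sg_inj {i i' : Fin (2 ^ d)} (h : ∀ c, sg d i c = sg d i' c) : i = i' := by
  apply (Fintype.equivFinOfCardEq (α := Fin d → Bool) (n := 2 ^ d) (by simp)).symm.injective
  funext j
  have h1 := h j.succ
  unfold sg at h1
  simp only [Fin.cases_succ] at h1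
  split_ifs at h1 with h2 h3 h3
  · rw [h2, h3]
  · simp only [Bool.not_eq_true] at h2 h3
    rw [h2, h3]

/-- The points of de Bruijn's construction. -/
noncomputable def pt (d k : ℕ) (g : Fin (2 ^ d) → Fin (k - 1)) : Fin (d + 1) → ℤ := fun c =>
  ∑ j ∈ Finset.range (2 ^ d), (if h : j < 2 ^ d then sg d ⟨j, h⟩ c * ((g ⟨j, h⟩ : ℕ) : ℤ) else 0) *
    (k : ℤ) ^ j

/-- For two different functions there is a position such that the signs of the differences of all
coordinates are determined by the pattern and the digits at this position. -/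
lemma pt_sign {k : ℕ} (hk : 2 ≤ k) {g h : Fin (2 ^ d) → Fin (k - 1)} (hgh : g ≠ h) :
    ∃ i : Fin (2 ^ d), g i ≠ h i ∧ ∀ c,
      (0 < sg d i c * (((h i : ℕ) : ℤ) - ((g i : ℕ) : ℤ)) → pt d k g c < pt d k h c) ∧
      (sg d i c * (((h i : ℕ) : ℤ) - ((g i : ℕ) : ℤ)) < 0 → pt d k h c < pt d k g c) := by
  classical
  have hne : (Finset.univ.filter fun i => g i ≠ h i).Nonempty := by
    by_contra hcon
    rw [Finset.not_nonempty_iff_eq_empty, Finset.filter_eq_empty_iff] at hcon
    apply hgh
    funext i
    simpa using hcon (Finset.mem_univ i)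
  set i := (Finset.univ.filter fun i => g i ≠ h i).max' hne with hi
  have him : g i ≠ h i := (Finset.mem_filter.mp (Finset.max'_mem _ hne)).2
  refine ⟨i, him, fun c => ?_⟩
  let a : ℕ → ℤ := fun j => if hj : j < 2 ^ d then
    sg d ⟨j, hj⟩ c * (((h ⟨j, hj⟩ : ℕ) : ℤ) - ((g ⟨j, hj⟩ : ℕ) : ℤ)) else 0
  have ha : ∀ j, |a j| ≤ (k : ℤ) - 2 := by
    intro j
    simp only [a]
    split_ifs with hj
    · have h1 := (h ⟨j, hj⟩).2
      have h2 := (g ⟨j, hj⟩).2
      rw [abs_mul]
      rcases sg_or ⟨j, hj⟩ c with h3 | h3 <;> rw [h3] <;>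
      · simp only [abs_one, abs_neg, one_mul]
        rw [abs_le]
        constructor <;> omega
    · simp
      omega
  have hz : ∀ j, (i : ℕ) < j → a j = 0 := by
    intro j hj
    simp only [a]
    split_ifs with hj'
    · have h1 : g ⟨j, hj'⟩ = h ⟨j, hj'⟩ := by
        by_contra hcon
        have h2 := Finset.le_max' (Finset.univ.filter fun i => g i ≠ h i) ⟨j, hj'⟩
          (Finset.mem_filter.mpr ⟨Finset.mem_univ _, hcon⟩)
        rw [← hi, Fin.le_def] at h2
        simp only at h2
        omega
      rw [h1]; ring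
    · rfl
  have hsum : pt d k h c - pt d k g c = ∑ j ∈ Finset.range (2 ^ d), a j * (k : ℤ) ^ j := by
    unfold pt
    rw [← Finset.sum_sub_distrib]
    refine Finset.sum_congr rfl fun j hj => ?_
    have hj' := Finset.mem_range.mp hj
    simp only [a, dif_pos hj']
    ring
  have hai : a i = sg d i c * (((h i : ℕ) : ℤ) - ((g i : ℕ) : ℤ)) := by
    simp only [a, dif_pos i.2]
  have h2 := sign_sum (k := (k : ℤ)) (by exact_mod_cast hk) a ha i.2 hz
  rw [← hsum, hai] at h2
  exact ⟨fun h => by linarith [h2.1 h], fun h => by linarith [h2.2 h]⟩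

lemma pt_inj {k : ℕ} (hk : 2 ≤ k) : Function.Injective (pt d k) := by
  intro g h hgh
  by_contra hne
  obtain ⟨i, hi, hs⟩ := pt_sign hk hne
  have h1 := hs 0
  rw [sg_zero, one_mul, hgh] at h1
  have h2 : ((h i : ℕ) : ℤ) ≠ ((g i : ℕ) : ℤ) := by
    intro h3
    apply hi
    apply Fin.ext
    exact_mod_cast h3.symm
  rcases lt_or_gt_of_ne h2 with h3 | h3
  · exact absurd (h1.2 (by linarith)) (lt_irrefl _)
  · exact absurd (h1.1 (by linarith)) (lt_irrefl _)

lemma lower_gp {k : ℕ} (hk : 2 ≤ k) :
    IsGeneralPosition (grid (d + 1)) k (Set.range (pt d k)) := by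
  classical
  rintro T hT hcard ⟨u, v, p, hp, hTp⟩
  -- the index of a point on the geodesic
  have hidx : ∀ t ∈ T, ∃ m, p.getVert m = t ∧ m ≤ p.length := by
    intro t ht
    exact (SimpleGraph.Walk.mem_support_iff_exists_getVert).mp (hTp t (by exact_mod_cast ht))
  have hpt : ∀ t ∈ T, ∃ g, pt d k g = t := fun t ht => hT (by exact_mod_cast ht)
  have : Nonempty (Fin (2 ^ d) → Fin (k - 1)) := ⟨fun _ => ⟨0, by omega⟩⟩
  choose! G hG using hpt
  -- the pattern of the geodesic
  have key2 : ∀ s ∈ T, ∀ t ∈ T, s ≠ t → ∃ i : Fin (2 ^ d), G s i ≠ G t i ∧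
      ∀ c, sg d i c = if (u 0 < v 0 ↔ u c < v c) then 1 else -1 := by
    -- it is enough to treat the pairs in the order of the geodesic
    have aux : ∀ s ∈ T, ∀ t ∈ T, s ≠ t → ∀ a b, p.getVert a = s → p.getVert b = t → a ≤ b →
        b ≤ p.length → ∃ i : Fin (2 ^ d), G s i ≠ G t i ∧
        ∀ c, sg d i c = if (u 0 < v 0 ↔ u c < v c) then 1 else -1 := by
      intro s hs t ht hst a b ha hb hab hbl
      have hGne : G s ≠ G t := by
        intro h
        apply hst
        rw [← hG s hs, ← hG t ht, h]
      obtain ⟨i, hi, hsgn⟩ := pt_sign hk hGne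
      rw [hG s hs, hG t ht] at hsgn
      refine ⟨i, hi, ?_⟩
      have hgeo : ∀ c, (s c < t c → u c < v c) ∧ (t c < s c → v c < u c) := by
        intro c
        have := geo p hp hab hbl c
        rwa [ha, hb] at this
      have hdig : ((G t i : ℕ) : ℤ) ≠ ((G s i : ℕ) : ℤ) := by
        intro h3
        apply hi
        apply Fin.ext
        exact_mod_cast h3.symm
      intro c
      have h0 := hsgn 0
      have hc := hsgn c
      rw [sg_zero, one_mul] at h0
      have g0 := hgeo 0
      have gc := hgeo c
      rcases lt_or_gt_of_ne hdig with h3 | h3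
      · have h4 := g0.2 (h0.2 (by linarith))
        rcases sg_or i c with h5 | h5
        · rw [h5, one_mul] at hc
          have h6 := gc.2 (hc.2 (by linarith))
          rw [h5, if_pos]
          constructor <;> intro h7 <;> omega
        · rw [h5] at hc
          have h6 := gc.1 (hc.1 (by linarith))
          rw [h5, if_neg]
          intro h7
          have := h7.mpr h6
          omega
      · have h4 := g0.1 (h0.1 (by linarith))
        rcases sg_or i c with h5 | h5
        · rw [h5, one_mul] at hc
          have h6 := gc.1 (hc.1 (by linarith))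
          rw [h5, if_pos]
          exact ⟨fun _ => h6, fun _ => h4⟩
        · rw [h5] at hc
          have h6 := gc.2 (hc.2 (by linarith))
          rw [h5, if_neg]
          intro h7
          have := h7.mp h4
          omega
    intro s hs t ht hst
    obtain ⟨a, ha, hal⟩ := hidx s hs
    obtain ⟨b, hb, hbl⟩ := hidx t ht
    rcases le_total a b with hab | hab
    · exact aux s hs t ht hst a b ha hb hab hbl
    · obtain ⟨i, hi, hc⟩ := aux t ht s hs hst.symm b a hb ha hab hal
      exact ⟨i, hi.symm, hc⟩
  -- two points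
  have h2 : 1 < T.card := by omega
  obtain ⟨s0, hs0, t0, ht0, hst0⟩ := Finset.one_lt_card.mp h2
  obtain ⟨i0, -, hi0⟩ := key2 s0 hs0 t0 ht0 hst0
  have hinj : Set.InjOn (fun t => G t i0) (T : Set (Fin (d + 1) → ℤ)) := by
    intro s hs t ht hst
    by_contra hne
    obtain ⟨i, hi, hc⟩ := key2 s (by exact_mod_cast hs) t (by exact_mod_cast ht) hne
    have : i = i0 := sg_inj fun c => by rw [hc c, hi0 c]
    rw [this] at hi
    exact hi hst
  have h3 := Finset.card_le_card_of_injOn (t := Finset.univ) (fun t => G t i0)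
    (fun t _ => Finset.mem_coe.mpr (Finset.mem_univ _)) hinj
  rw [Finset.card_univ, Fintype.card_fin] at h3
  omega

end lower

/-- **The `k`-general position number of the `n`-dimensional infinite grid is
`(k - 1) ^ (2 ^ (n - 1))`** for all `k ≥ 2` and `n ≥ 1`: every `k`-general position set is finite with at
most this number of elements, and there is a `k`-general position set with exactly this number of
elements. -/
theorem result (n k : ℕ) (hn : 1 ≤ n) (hk : 2 ≤ k) :
    (∀ S : Set (Fin n → ℤ), IsGeneralPosition (grid n) k S →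
      S.Finite ∧ S.ncard ≤ (k - 1) ^ (2 ^ (n - 1))) ∧
    ∃ S : Set (Fin n → ℤ), IsGeneralPosition (grid n) k S ∧
      S.Finite ∧ S.ncard = (k - 1) ^ (2 ^ (n - 1)) := by
  classical
  obtain ⟨d, rfl⟩ : ∃ d, n = d + 1 := ⟨n - 1, by omega⟩
  rw [Nat.add_sub_cancel]
  refine ⟨fun S hS => ?_, Set.range (pt d k), lower_gp hk, Set.finite_range _, ?_⟩
  · have hfin : S.Finite := by
      by_contra hinf
      obtain ⟨F, hFS, hF⟩ := Set.Infinite.exists_subset_card_eq hinf ((k - 1) ^ (2 ^ d) + 1)
      have := upper_finset hk F fun T hT => hS T (hT.trans hFS)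
      omega
    refine ⟨hfin, ?_⟩
    rw [Set.ncard_eq_toFinset_card S hfin]
    exact upper_finset hk _ fun T hT => hS T (by simpa using hT)
  · rw [← Set.image_univ, Set.ncard_image_of_injective _ (pt_inj hk), Set.ncard_univ,
      Nat.card_eq_fintype_card]
    simp

end Pool.Agent.Results.MP_2aa471_co.GeneralPosition
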